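import Pool.Agent.H73.PHS.Stmts

set_option autoImplicit false

open Set Filter Topology MeasureTheory Metric

namespace Pool.PHS

theorem THK_thm : THKStmt := by
  intro n E ε hε hE
  rcases E.eq_empty_or_nonempty with rfl | ⟨x₀, hx₀⟩
  · rw [thickening_empty]
    exact isPreconnected_empty
  · refine isPreconnected_of_forall x₀ fun y hy => ?_
    rw [mem_thickening_iff] at hy
    obtain ⟨x, hx, hyx⟩ := hy
    refine ⟨E ∪ ball x ε, ?_, Or.inl hx₀, Or.inr (mem_ball.2 hyx), ?_⟩
    · rintro z (hz | hz)
      · exact self_subset_thickening hε E hz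
      · exact mem_thickening_iff.2 ⟨x, hx, mem_ball.1 hz⟩
    · exact IsPreconnected.union x hx (mem_ball_self hε) hE (convex_ball x ε).isPreconnected

end Pool.PHS
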